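import Pool.Agent.EOForest.Types

/-!
# Embedding a forest with small components
-/

set_option autoImplicit false

open Finset

namespace Pool.Agent.EOForest

/-- a vertex outside of a connected set has at most one neighbour in it -/
theorem unique_nbr {V : Type} {G : SimpleGraph V} (hG : G.IsAcyclic) {T : Finset V}
    {r x u u' : V} (hx : x ∉ T) (hu : ∃ p : G.Walk r u, ∀ y ∈ p.support, y ∈ T)
    (hu' : ∃ p : G.Walk r u', ∀ y ∈ p.support, y ∈ T) (ha : G.Adj x u) (ha' : G.Adj x u') :
    u = u' := by
  by_contra hne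
  obtain ⟨p, hp⟩ := hu
  obtain ⟨p', hp'⟩ := hu'
  have h1 := SimpleGraph.isBridge_iff_forall_walk_mem_edges.1
    (SimpleGraph.isAcyclic_iff_forall_adj_isBridge.1 hG ha)
    (SimpleGraph.Walk.cons ha' (p'.reverse.append p))
  rw [SimpleGraph.Walk.edges_cons, List.mem_cons] at h1
  rcases h1 with h1 | h1
  · rw [Sym2.eq_iff] at h1
    rcases h1 with h1 | h1
    · exact hne h1.2
    · exact ha'.ne h1.1
  · have h2 := SimpleGraph.Walk.fst_mem_support_of_mem_edges _ h1
    rw [SimpleGraph.Walk.mem_support_append_iff, SimpleGraph.Walk.support_reverse,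
      List.mem_reverse] at h2
    rcases h2 with h2 | h2
    · exact hx (hp' _ h2)
    · exact hx (hp _ h2)

variable {n N K k : ℕ}

open Classical in
/-- the candidates for the image of `x` (depth `j`), avoiding `D` -/
noncomputable def cand (G : SimpleGraph (Fin n)) (W : Sym2 (Fin N) → Fin K)
    (c : Sym2 (Fin N) → Bool) (b : Bool) (win : Sym2 (Fin n) → Fin k → Fin K)
    (D : Finset (Fin N)) : ℕ → Fin n → Finset (Fin N)
  | 0, _ => Dᶜ
  | j + 1, x => univ.filter fun y => y ∉ D ∧ ∀ x', G.Adj x x' → ∀ i,
      y ∈ nb W c b (win s(x, x') i) (cand G W c b win D j x')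

variable {G : SimpleGraph (Fin n)} {W : Sym2 (Fin N) → Fin K} {c : Sym2 (Fin N) → Bool}
  {b : Bool} {win : Sym2 (Fin n) → Fin k → Fin K} {D : Finset (Fin N)}

theorem mem_cand_succ {j : ℕ} {x : Fin n} {y : Fin N} :
    y ∈ cand G W c b win D (j + 1) x ↔ y ∉ D ∧ ∀ x', G.Adj x x' → ∀ i,
      y ∈ nb W c b (win s(x, x') i) (cand G W c b win D j x') := by
  rw [cand]
  simp only [mem_filter, mem_univ, true_and]

theorem cand_notMem {j : ℕ} {x : Fin n} {y : Fin N} (h : y ∈ cand G W c b win D j x) :
    y ∉ D := by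
  cases j with
  | zero => exact mem_compl.1 h
  | succ j => exact (mem_cand_succ.1 h).1

theorem cand_anti (j : ℕ) (x : Fin n) :
    cand G W c b win D (j + 1) x ⊆ cand G W c b win D j x := by
  induction j generalizing x with
  | zero =>
    intro y hy
    exact mem_compl.2 (cand_notMem hy)
  | succ j ih =>
    intro y hy
    rw [mem_cand_succ] at hy ⊢
    exact ⟨hy.1, fun x' hx' i => nb_mono (ih x') (hy.2 x' hx' i)⟩

open Classical in
theorem card_cand {m : ℕ} {u v : ℕ → ℕ} (hu0 : m ≤ u 0)
    (hstep : ∀ j < k, m + k * k * v j ≤ u (j + 1))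
    (hrob : ∀ e i, Rob W c b (win e i) u v k)
    (hdeg : ∀ x, (univ.filter fun x' => G.Adj x x').card ≤ k) (hD : D.card ≤ m) {j : ℕ}
    (hj : j ≤ k) (x : Fin n) : (cand G W c b win D j x)ᶜ.card ≤ u j := by
  induction j generalizing x with
  | zero =>
    rw [cand, compl_compl]
    exact hD.trans hu0
  | succ j ih =>
    have hsub : (cand G W c b win D (j + 1) x)ᶜ ⊆ D ∪
        (univ.filter fun x' => G.Adj x x').biUnion fun x' => (univ : Finset (Fin k)).biUnion
          fun i => (nb W c b (win s(x, x') i) (cand G W c b win D j x'))ᶜ := by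
      intro y hy
      rw [mem_compl, mem_cand_succ, not_and_or] at hy
      rw [mem_union]
      rcases hy with hy | hy
      · exact Or.inl (not_not.1 hy)
      · right
        push Not at hy
        obtain ⟨x', h1, i, h2⟩ := hy
        rw [mem_biUnion]
        refine ⟨x', mem_filter.2 ⟨mem_univ _, h1⟩, ?_⟩
        rw [mem_biUnion]
        exact ⟨i, mem_univ _, mem_compl.2 h2⟩
    have h1 : ∀ x' i, (nb W c b (win s(x, x') i) (cand G W c b win D j x'))ᶜ.card ≤ v j :=
      fun x' i => hrob _ i j (by omega) _ (ih (by omega) x')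
    calc (cand G W c b win D (j + 1) x)ᶜ.card ≤ _ := card_le_card hsub
      _ ≤ D.card + _ := card_union_le _ _
      _ ≤ m + ∑ x' ∈ univ.filter fun x' => G.Adj x x', ∑ _i : Fin k, v j := by
        refine Nat.add_le_add hD (card_biUnion_le.trans (sum_le_sum fun x' _ => ?_))
        exact card_biUnion_le.trans (sum_le_sum fun i _ => h1 x' i)
      _ ≤ m + k * k * v j := by
        rw [sum_const, sum_const, card_univ, Fintype.card_fin, smul_eq_mul, smul_eq_mul]
        have := Nat.mul_le_mul_right (k * v j) (hdeg x)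
        rw [mul_assoc]
        omega
      _ ≤ u (j + 1) := hstep j (by omega)

/-- the edge `xy` is mapped well -/
def Good (W : Sym2 (Fin N) → Fin K) (c : Sym2 (Fin N) → Bool) (b : Bool)
    (win : Sym2 (Fin n) → Fin k → Fin K) (ψ : Fin n → Fin N) (x y : Fin n) : Prop :=
  ∃ i, W s(ψ x, ψ y) = win s(x, y) i ∧ c s(ψ x, ψ y) = b

theorem Good.symm {ψ : Fin n → Fin N} {x y : Fin n} (h : Good W c b win ψ x y) :
    Good W c b win ψ y x := by
  obtain ⟨i, h1, h2⟩ := h
  refine ⟨i, ?_, ?_⟩
  · rw [Sym2.eq_swap, h1, Sym2.eq_swap]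
  · rw [Sym2.eq_swap, h2]

theorem Good.congr {ψ ψ' : Fin n → Fin N} {x y : Fin n} (h : Good W c b win ψ x y)
    (hx : ψ' x = ψ x) (hy : ψ' y = ψ y) : Good W c b win ψ' x y := by
  rw [Good, hx, hy]
  exact h

open Classical in
theorem embed_comp (hG : G.IsAcyclic) (hwin : ∀ e, Function.Injective (win e))
    (hne : ∀ x, ∀ j < k, (cand G W c b win D j x).Nonempty) (r : Fin n)
    (hc : (univ.filter fun x => G.Reachable r x).card ≤ k) (s : ℕ) (hs : 1 ≤ s)
    (hs' : s ≤ (univ.filter fun x => G.Reachable r x).card) :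
    ∃ (T : Finset (Fin n)) (ψ : Fin n → Fin N), T.card = s ∧ r ∈ T ∧
      (∀ x ∈ T, ∃ p : G.Walk r x, ∀ y ∈ p.support, y ∈ T) ∧ Set.InjOn ψ (T : Set (Fin n)) ∧
      (∀ x ∈ T, ψ x ∈ cand G W c b win D (k - s) x) ∧
      ∀ x ∈ T, ∀ y ∈ T, G.Adj x y → Good W c b win ψ x y := by
  induction s, hs using Nat.le_induction with
  | base =>
    obtain ⟨y₀, hy₀⟩ := hne r (k - 1) (by omega)
    refine ⟨{r}, fun _ => y₀, card_singleton r, mem_singleton_self r, ?_, ?_, ?_, ?_⟩
    · intro x hx
      rw [mem_singleton] at hx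
      subst hx
      refine ⟨SimpleGraph.Walk.nil, fun y hy => ?_⟩
      rw [SimpleGraph.Walk.support_nil, List.mem_singleton] at hy
      rw [hy]
      exact mem_singleton_self _
    · rw [coe_singleton]
      exact Set.injOn_singleton _ _
    · intro x hx
      rw [mem_singleton] at hx
      rw [hx]
      exact hy₀
    · intro x hx y hy h
      rw [mem_singleton] at hx hy
      rw [hx, hy] at h
      exact absurd rfl h.ne
  | succ s hs ih =>
    obtain ⟨T, ψ, hT, hr, hwalk, hinj, hcand, hgood⟩ := ih (by omega)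
    -- a new vertex
    obtain ⟨t, ht, htT⟩ : ∃ t ∈ univ.filter fun x => G.Reachable r x, t ∉ T := by
      by_contra hcon
      push Not at hcon
      have := card_le_card hcon
      omega
    obtain ⟨p⟩ := (mem_filter.1 ht).2
    obtain ⟨d, -, hd1, hd2⟩ := p.exists_boundary_dart (T : Set (Fin n)) hr htT
    obtain ⟨⟨a, x₀⟩, hadj⟩ := d
    have ha : a ∈ T := hd1
    have hx₀ : x₀ ∉ T := hd2
    have hadj' : G.Adj a x₀ := hadj
    have hks : k - s = (k - (s + 1)) + 1 := by omega
    have h1 := hcand a ha
    rw [hks, mem_cand_succ] at h1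
    have h2 := fun i => mem_nb.1 (h1.2 x₀ hadj' i)
    choose z hz hzne hzW hzc using h2
    have hzinj : Function.Injective z := by
      intro i i' hii
      apply hwin s(a, x₀)
      rw [← hzW i, ← hzW i', hii]
    obtain ⟨i, hi⟩ : ∃ i, z i ∉ T.image ψ := by
      by_contra hcon
      push Not at hcon
      have h3 : (univ.image z) ⊆ T.image ψ := by
        intro w hw
        obtain ⟨i, -, rfl⟩ := mem_image.1 hw
        exact hcon i
      have h4 := card_le_card h3
      rw [card_image_of_injective _ hzinj, card_univ, Fintype.card_fin] at h4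
      have h5 : (T.image ψ).card ≤ T.card := card_image_le
      omega
    have hold : ∀ x ∈ T, Function.update ψ x₀ (z i) x = ψ x := by
      intro x hx
      rw [Function.update_of_ne]
      rintro rfl
      exact hx₀ hx
    have hnew : Function.update ψ x₀ (z i) x₀ = z i := Function.update_self _ _ _
    have hgnew : Good W c b win (Function.update ψ x₀ (z i)) a x₀ := by
      refine ⟨i, ?_, ?_⟩
      · rw [hold a ha, hnew, hzW]
      · rw [hold a ha, hnew, hzc]
    refine ⟨insert x₀ T, Function.update ψ x₀ (z i), ?_, mem_insert_of_mem hr, ?_, ?_, ?_, ?_⟩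
    · rw [card_insert_of_notMem hx₀, hT]
    · intro x hx
      rcases mem_insert.1 hx with rfl | hx
      · obtain ⟨p, hp⟩ := hwalk a ha
        refine ⟨p.append (SimpleGraph.Walk.cons hadj' SimpleGraph.Walk.nil), fun y hy => ?_⟩
        rw [SimpleGraph.Walk.mem_support_append_iff] at hy
        rcases hy with hy | hy
        · exact mem_insert_of_mem (hp y hy)
        · rw [SimpleGraph.Walk.support_cons, SimpleGraph.Walk.support_nil, List.mem_cons,
            List.mem_singleton] at hy
          rcases hy with rfl | rfl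
          · exact mem_insert_of_mem ha
          · exact mem_insert_self _ _
      · obtain ⟨p, hp⟩ := hwalk x hx
        exact ⟨p, fun y hy => mem_insert_of_mem (hp y hy)⟩
    · intro x hx y hy hxy
      rw [mem_coe, mem_insert] at hx hy
      rcases hx with rfl | hx <;> rcases hy with rfl | hy
      · rfl
      · rw [hnew, hold y hy] at hxy
        exact absurd (hxy ▸ mem_image_of_mem ψ hy) hi
      · rw [hnew, hold x hx] at hxy
        exact absurd (hxy ▸ mem_image_of_mem ψ hx) hi
      · rw [hold x hx, hold y hy] at hxy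
        exact hinj hx hy hxy
    · intro x hx
      rcases mem_insert.1 hx with rfl | hx
      · rw [hnew]
        exact hz i
      · rw [hold x hx]
        have h3 := hcand x hx
        rw [hks] at h3
        exact cand_anti _ _ h3
    · intro x hx y hy h
      rcases mem_insert.1 hx with hx' | hx' <;> rcases mem_insert.1 hy with hy' | hy'
      · rw [hx', hy'] at h
        exact absurd rfl h.ne
      · subst hx'
        have h3 : y = a := unique_nbr hG hx₀ (hwalk y hy') (hwalk a ha) h hadj'.symm
        rw [h3]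
        exact hgnew.symm
      · subst hy'
        have h3 : x = a := unique_nbr hG hx₀ (hwalk x hx') (hwalk a ha) h.symm hadj'.symm
        rw [h3]
        exact hgnew
      · exact (hgood x hx' y hy' h).congr (hold x hx') (hold y hy')

open Classical in
/-- one whole component -/
theorem embed_comp' (hG : G.IsAcyclic) (hwin : ∀ e, Function.Injective (win e))
    (hne : ∀ x, ∀ j < k, (cand G W c b win D j x).Nonempty) (r : Fin n)
    (hc : (univ.filter fun x => G.Reachable r x).card ≤ k) :
    ∃ ψ : Fin n → Fin N, (∀ x y, G.Reachable r x → G.Reachable r y → ψ x = ψ y → x = y) ∧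
      (∀ x, G.Reachable r x → ψ x ∉ D) ∧
      ∀ x y, G.Reachable r x → G.Adj x y → Good W c b win ψ x y := by
  have h1 : 1 ≤ (univ.filter fun x => G.Reachable r x).card :=
    card_pos.2 ⟨r, mem_filter.2 ⟨mem_univ _, SimpleGraph.Reachable.refl r⟩⟩
  obtain ⟨T, ψ, hT, hr, hwalk, hinj, hcand, hgood⟩ := embed_comp hG hwin hne r hc _ h1 le_rfl
  have h2 : T = univ.filter fun x => G.Reachable r x := by
    apply eq_of_subset_of_card_le
    · intro x hx
      obtain ⟨p, -⟩ := hwalk x hx
      exact mem_filter.2 ⟨mem_univ _, ⟨p⟩⟩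
    · rw [hT]
  have h3 : ∀ x, G.Reachable r x → x ∈ T := by
    intro x hx
    rw [h2]
    exact mem_filter.2 ⟨mem_univ _, hx⟩
  refine ⟨ψ, fun x y hx hy h => hinj (h3 x hx) (h3 y hy) h,
    fun x hx => cand_notMem (hcand x (h3 x hx)), fun x y hx h => ?_⟩
  exact hgood x (h3 x hx) y (h3 y (hx.trans h.reachable)) h

open Classical in
/-- the whole forest -/
theorem embed_forest {m : ℕ} {u v : ℕ → ℕ} (hnm : n ≤ m) (hG : G.IsAcyclic)
    (hwin : ∀ e, Function.Injective (win e)) (hu0 : m ≤ u 0)
    (hstep : ∀ j < k, m + k * k * v j ≤ u (j + 1)) (huN : ∀ j ≤ k, u j < N)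
    (hrob : ∀ e i, Rob W c b (win e i) u v k)
    (hc : ∀ r, (univ.filter fun x => G.Reachable r x).card ≤ k) :
    ∃ φ : Fin n → Fin N, Function.Injective φ ∧
      ∀ x y, G.Adj x y → Good W c b win φ x y := by
  have hdeg : ∀ x, (univ.filter fun x' => G.Adj x x').card ≤ k := by
    intro x
    refine (card_le_card ?_).trans (hc x)
    intro x' hx'
    rw [mem_filter] at hx' ⊢
    exact ⟨mem_univ _, hx'.2.reachable⟩
  have hne : ∀ D : Finset (Fin N), D.card ≤ m → ∀ x, ∀ j < k,
      (cand G W c b win D j x).Nonempty := by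
    intro D hD x j hj
    have h1 := card_cand (G := G) hu0 hstep hrob hdeg hD hj.le x
    have h2 := huN j hj.le
    rw [card_compl, Fintype.card_fin] at h1
    rw [← card_pos]
    omega
  have key : ∀ R : Finset (Fin n), ∃ φ : Fin n → Fin N,
      (∀ x y, (∃ r ∈ R, G.Reachable r x) → (∃ r ∈ R, G.Reachable r y) → φ x = φ y → x = y) ∧
      ∀ x y, (∃ r ∈ R, G.Reachable r x) → G.Adj x y → Good W c b win φ x y := by
    intro R
    induction R using Finset.induction_on with
    | empty =>
      by_cases hn : Nonempty (Fin N)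
      · obtain ⟨y₀⟩ := hn
        refine ⟨fun _ => y₀, ?_, ?_⟩
        · rintro x y ⟨r, hr, -⟩
          simp at hr
        · rintro x y ⟨r, hr, -⟩
          simp at hr
      · have h1 : N = 0 := by
          by_contra h
          exact hn ⟨⟨0, by omega⟩⟩
        have h2 := huN 0 (Nat.zero_le _)
        omega
    | insert r R hr ih =>
      obtain ⟨φ, h1, h2⟩ := ih
      by_cases hrR : ∃ r' ∈ R, G.Reachable r' r
      · have h3 : ∀ x, (∃ r' ∈ insert r R, G.Reachable r' x) → ∃ r' ∈ R, G.Reachable r' x := by
          rintro x ⟨r', hr', hx⟩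
          rcases mem_insert.1 hr' with rfl | hr'
          · obtain ⟨r'', h4, h5⟩ := hrR
            exact ⟨r'', h4, h5.trans hx⟩
          · exact ⟨r', hr', hx⟩
        exact ⟨φ, fun x y hx hy => h1 x y (h3 x hx) (h3 y hy), fun x y hx => h2 x y (h3 x hx)⟩
      · set D : Finset (Fin N) := (univ : Finset (Fin n)).image φ with hD
        have hDm : D.card ≤ m := by
          refine card_image_le.trans ?_
          rw [card_univ, Fintype.card_fin]
          exact hnm
        obtain ⟨ψ, h3, h4, h5⟩ := embed_comp' hG hwin (hne D hDm) r (hc r)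
        have h6 : ∀ x, (∃ r' ∈ R, G.Reachable r' x) → ¬ G.Reachable r x := by
          rintro x ⟨r', hr', hx⟩ hx'
          exact hrR ⟨r', hr', hx.trans hx'.symm⟩
        have h7 : ∀ x, (∃ r' ∈ insert r R, G.Reachable r' x) → ¬ G.Reachable r x →
            ∃ r' ∈ R, G.Reachable r' x := by
          rintro x ⟨r', hr', hx⟩ hx'
          rcases mem_insert.1 hr' with rfl | hr'
          · exact absurd hx hx'
          · exact ⟨r', hr', hx⟩
        refine ⟨fun x => if G.Reachable r x then ψ x else φ x, ?_, ?_⟩
        · intro x y hx hy hxy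
          by_cases hx' : G.Reachable r x <;> by_cases hy' : G.Reachable r y
          · simp only [hx', hy', if_true] at hxy
            exact h3 x y hx' hy' hxy
          · simp only [hx', hy', if_true, if_false] at hxy
            exact absurd (hxy ▸ mem_image_of_mem φ (mem_univ y)) (h4 x hx')
          · simp only [hx', hy', if_true, if_false] at hxy
            exact absurd (hxy ▸ mem_image_of_mem φ (mem_univ x)) (h4 y hy')
          · simp only [hx', hy', if_false] at hxy
            exact h1 x y (h7 x hx hx') (h7 y hy hy') hxy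
        · intro x y hx hxy
          by_cases hx' : G.Reachable r x
          · have hy' : G.Reachable r y := hx'.trans hxy.reachable
            exact (h5 x y hx' hxy).congr (by simp only [hx', if_true]) (by simp only [hy', if_true])
          · have hy' : ¬ G.Reachable r y := fun h => hx' (h.trans hxy.symm.reachable)
            exact (h2 x y (h7 x hx hx') hxy).congr (by simp only [hx', if_false])
              (by simp only [hy', if_false])
  obtain ⟨φ, h1, h2⟩ := key univ
  have h3 : ∀ x : Fin n, ∃ r ∈ (univ : Finset (Fin n)), G.Reachable r x :=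
    fun x => ⟨x, mem_univ _, SimpleGraph.Reachable.refl x⟩
  exact ⟨φ, fun x y hxy => h1 x y (h3 x) (h3 y) hxy, fun x y hxy => h2 x y (h3 x) hxy⟩

end Pool.Agent.EOForest
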