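import Mathlib

/-!
# Pseudo-random windows

A function `W` from the pairs of `Fin N` to `Fin K` such that for every `w : Fin K` there is a pair
of class `w` between any two disjoint sets of size `m`.
-/

set_option autoImplicit false

open Finset

namespace Pool.Agent.EOForest

theorem pow_aux (j n : ℕ) : j ^ n * (j + n) ≤ (j + 1) ^ n * j := by
  induction n with
  | zero => simp
  | succ n ih =>
    calc j ^ (n + 1) * (j + (n + 1)) = j ^ n * (j * (j + (n + 1))) := by ring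
      _ ≤ j ^ n * ((j + 1) * (j + n)) := by
        apply Nat.mul_le_mul_left
        nlinarith
      _ = (j + 1) * (j ^ n * (j + n)) := by ring
      _ ≤ (j + 1) * ((j + 1) ^ n * j) := Nat.mul_le_mul_left _ ih
      _ = (j + 1) ^ (n + 1) * j := by ring

theorem pow_two_aux (K : ℕ) (hK : 0 < K) : (K - 1) ^ K * 2 ≤ K ^ K := by
  obtain ⟨j, rfl⟩ : ∃ j, K = j + 1 := ⟨K - 1, by omega⟩
  rw [Nat.add_sub_cancel]
  rcases Nat.eq_zero_or_pos j with rfl | hj
  · simp
  · have h := pow_aux j (j + 1)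
    have h1 : j * (j ^ (j + 1) * 2) ≤ j * (j + 1) ^ (j + 1) := by
      calc j * (j ^ (j + 1) * 2) = j ^ (j + 1) * (2 * j) := by ring
        _ ≤ j ^ (j + 1) * (j + (j + 1)) := Nat.mul_le_mul_left _ (by omega)
        _ ≤ (j + 1) ^ (j + 1) * j := h
        _ = j * (j + 1) ^ (j + 1) := by ring
    exact Nat.le_of_mul_le_mul_left h1 hj

theorem pow_bound {K t P : ℕ} (hK : 0 < K) (hP : K * t ≤ P) : (K - 1) ^ P * 2 ^ t ≤ K ^ P := by
  obtain ⟨d, rfl⟩ : ∃ d, P = K * t + d := ⟨P - K * t, by omega⟩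
  calc (K - 1) ^ (K * t + d) * 2 ^ t = ((K - 1) ^ K * 2) ^ t * (K - 1) ^ d := by
        rw [pow_add, pow_mul, mul_pow]; ring
    _ ≤ (K ^ K) ^ t * K ^ d :=
        Nat.mul_le_mul (Nat.pow_le_pow_left (pow_two_aux K hK) t)
          (Nat.pow_le_pow_left (by omega) d)
    _ = K ^ (K * t + d) := by rw [pow_add, pow_mul]

variable {N K : ℕ}

/-- the pairs between `Y` and `Z` -/
def pairs (Y Z : Finset (Fin N)) : Finset (Sym2 (Fin N)) :=
  (Y ×ˢ Z).image fun p => s(p.1, p.2)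

theorem card_pairs {Y Z : Finset (Fin N)} (h : Disjoint Y Z) :
    (pairs Y Z).card = Y.card * Z.card := by
  rw [pairs, card_image_of_injOn, card_product]
  rintro ⟨y, z⟩ h1 ⟨y', z'⟩ h2 h3
  simp only [coe_product, Set.mem_prod, mem_coe] at h1 h2
  simp only [Sym2.eq_iff] at h3
  rcases h3 with ⟨rfl, rfl⟩ | ⟨rfl, rfl⟩
  · rfl
  · exact absurd h2.2 (disjoint_left.1 h h1.1)

/-- the functions without a pair of class `w` in `P` -/
def bad (P : Finset (Sym2 (Fin N))) (w : Fin K) : Finset (Sym2 (Fin N) → Fin K) :=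
  Fintype.piFinset fun e => if e ∈ P then univ.erase w else univ

theorem card_bad (P : Finset (Sym2 (Fin N))) (w : Fin K) :
    (bad P w).card = (K - 1) ^ P.card * K ^ (Fintype.card (Sym2 (Fin N)) - P.card) := by
  rw [bad, Fintype.card_piFinset]
  have h1 : ∀ e : Sym2 (Fin N), (if e ∈ P then univ.erase w else univ : Finset (Fin K)).card =
      if e ∈ P then K - 1 else K := by
    intro e
    split_ifs
    · rw [card_erase_of_mem (mem_univ w), card_univ, Fintype.card_fin]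
    · rw [card_univ, Fintype.card_fin]
  rw [prod_congr rfl fun e _ => h1 e, prod_ite, prod_const, prod_const]
  congr 2
  · congr 1
    ext e
    simp
  · have h2 : (univ.filter fun e => ¬ e ∈ P) = Pᶜ := by
      ext e
      simp
    rw [h2, card_compl]

theorem exists_windows {m : ℕ} (hK : 0 < K) (hK2 : K < 2 ^ N) (hm : K * (3 * N) ≤ m * m) :
    ∃ W : Sym2 (Fin N) → Fin K, ∀ (w : Fin K) (Y Z : Finset (Fin N)), Disjoint Y Z →
      Y.card = m → Z.card = m → ∃ y ∈ Y, ∃ z ∈ Z, W s(y, z) = w := by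
  classical
  by_contra hcon
  push Not at hcon
  set S := Fintype.card (Sym2 (Fin N)) with hS
  set I : Finset (Fin K × Finset (Fin N) × Finset (Fin N)) :=
    univ.filter fun t => Disjoint t.2.1 t.2.2 ∧ t.2.1.card = m ∧ t.2.2.card = m with hI
  have hsub : (univ : Finset (Sym2 (Fin N) → Fin K)) ⊆
      I.biUnion fun t => bad (pairs t.2.1 t.2.2) t.1 := by
    intro W _
    obtain ⟨w, Y, Z, h1, h2, h3, h4⟩ := hcon W
    rw [mem_biUnion]
    refine ⟨(w, Y, Z), ?_, ?_⟩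
    · rw [hI, mem_filter]
      exact ⟨mem_univ _, h1, h2, h3⟩
    · rw [bad, Fintype.mem_piFinset]
      intro e
      by_cases he : e ∈ pairs Y Z
      · simp only [he, if_true, mem_erase, mem_univ, and_true]
        rw [pairs, mem_image] at he
        obtain ⟨⟨y, z⟩, h5, rfl⟩ := he
        rw [mem_product] at h5
        exact h4 y h5.1 z h5.2
      · simp only [he, if_false, mem_univ]
  have h1 := card_le_card hsub
  have h2 : ∀ t ∈ I, (bad (pairs t.2.1 t.2.2) t.1).card * 2 ^ (3 * N) ≤ K ^ S := by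
    rintro ⟨w, Y, Z⟩ ht
    rw [hI, mem_filter] at ht
    obtain ⟨-, h3, h4, h5⟩ := ht
    have h3' : Disjoint Y Z := h3
    have h6 : (pairs Y Z).card = m * m := by rw [card_pairs h3', h4, h5]
    have h7 : (pairs Y Z).card ≤ S := card_le_univ _
    change (bad (pairs Y Z) w).card * 2 ^ (3 * N) ≤ K ^ S
    rw [card_bad, h6]
    rw [h6] at h7
    calc (K - 1) ^ (m * m) * K ^ (S - m * m) * 2 ^ (3 * N)
        = ((K - 1) ^ (m * m) * 2 ^ (3 * N)) * K ^ (S - m * m) := by ring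
      _ ≤ K ^ (m * m) * K ^ (S - m * m) := Nat.mul_le_mul_right _ (pow_bound hK hm)
      _ = K ^ S := by rw [← pow_add]; congr 1; omega
  have h3 : I.card ≤ K * (2 ^ N * 2 ^ N) := by
    refine (card_le_univ I).trans (le_of_eq ?_)
    simp
  have h4 : K ^ S * 2 ^ (3 * N) ≤ K * (2 ^ N * 2 ^ N) * K ^ S := by
    calc K ^ S * 2 ^ (3 * N) = (univ : Finset (Sym2 (Fin N) → Fin K)).card * 2 ^ (3 * N) := by
          rw [card_univ, Fintype.card_fun, Fintype.card_fin]
      _ ≤ (∑ t ∈ I, (bad (pairs t.2.1 t.2.2) t.1).card) * 2 ^ (3 * N) :=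
          Nat.mul_le_mul_right _ (h1.trans card_biUnion_le)
      _ = ∑ t ∈ I, (bad (pairs t.2.1 t.2.2) t.1).card * 2 ^ (3 * N) := sum_mul _ _ _
      _ ≤ ∑ _t ∈ I, K ^ S := sum_le_sum h2
      _ = I.card * K ^ S := by rw [sum_const, smul_eq_mul]
      _ ≤ K * (2 ^ N * 2 ^ N) * K ^ S := Nat.mul_le_mul_right _ h3
  have h5 : 0 < K ^ S := pow_pos hK S
  have h6 : 2 ^ (3 * N) ≤ K * (2 ^ N * 2 ^ N) := by
    refine Nat.le_of_mul_le_mul_left ?_ h5
    calc K ^ S * 2 ^ (3 * N) ≤ K * (2 ^ N * 2 ^ N) * K ^ S := h4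
      _ = K ^ S * (K * (2 ^ N * 2 ^ N)) := by ring
  have h7 : (2 : ℕ) ^ (3 * N) = 2 ^ N * (2 ^ N * 2 ^ N) := by
    rw [← pow_add, ← pow_add]
    congr 1
    ring
  rw [h7] at h6
  have h8 : 0 < 2 ^ N * 2 ^ N := by positivity
  exact absurd (Nat.le_of_mul_le_mul_right h6 h8) (not_le.2 hK2)

/-- the form which is used -/
theorem exists_windows' {m : ℕ} (hK : 0 < K) (hK2 : K < 2 ^ N) (hm : K * (3 * N) ≤ m * m) :
    ∃ W : Sym2 (Fin N) → Fin K, ∀ (w : Fin K) (Y Z : Finset (Fin N)),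
      2 * m ≤ Y.card → 2 * m ≤ Z.card → ∃ y ∈ Y, ∃ z ∈ Z, z ≠ y ∧ W s(y, z) = w := by
  obtain ⟨W, hW⟩ := exists_windows hK hK2 hm
  refine ⟨W, fun w Y Z hY hZ => ?_⟩
  obtain ⟨Y', hY', hYc⟩ := exists_subset_card_eq (show m ≤ Y.card by omega)
  have h1 : m ≤ (Z \ Y').card := by
    have := le_card_sdiff Y' Z
    omega
  obtain ⟨Z', hZ', hZc⟩ := exists_subset_card_eq h1
  have hd : Disjoint Y' Z' := by
    rw [disjoint_left]
    intro x hx hx'
    exact (mem_sdiff.1 (hZ' hx')).2 hx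
  obtain ⟨y, hy, z, hz, h⟩ := hW w Y' Z' hd hYc hZc
  refine ⟨y, hY' hy, z, (mem_sdiff.1 (hZ' hz)).1, ?_, h⟩
  rintro rfl
  exact disjoint_left.1 hd hy hz

end Pool.Agent.EOForest
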