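import Pool.Agent.EOForest.Embed

/-!
# Edge-ordered forests with small components have linear edge-ordered Ramsey numbers
-/

set_option autoImplicit false

open Finset

namespace Pool.Agent.EOForest

open Classical in
/-- the host order belonging to the windows -/
noncomputable def ord {N K : ℕ} (W : Sym2 (Fin N) → Fin K) (e : Sym2 (Fin N)) : ℕ :=
  (W e).1 * Fintype.card (Sym2 (Fin N)) + (Fintype.equivFin (Sym2 (Fin N)) e).1

theorem ord_lt {N K : ℕ} {W : Sym2 (Fin N) → Fin K} {e e' : Sym2 (Fin N)} (h : W e < W e') :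
    ord W e < ord W e' := by
  classical
  unfold ord
  have h1 := (Fintype.equivFin (Sym2 (Fin N)) e).2
  have h2 : (W e).1 + 1 ≤ (W e').1 := h
  have h3 := Nat.mul_le_mul_right (Fintype.card (Sym2 (Fin N))) h2
  have h4 : ((W e).1 + 1) * Fintype.card (Sym2 (Fin N)) =
    (W e).1 * Fintype.card (Sym2 (Fin N)) + Fintype.card (Sym2 (Fin N)) := by ring
  omega

theorem ord_injective {N K : ℕ} (W : Sym2 (Fin N) → Fin K) : Function.Injective (ord W) := by
  classical
  intro e e' h
  rcases lt_trichotomy (W e) (W e') with h1 | h1 | h1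
  · exact absurd h (ord_lt h1).ne
  · apply (Fintype.equivFin (Sym2 (Fin N))).injective
    apply Fin.ext
    unfold ord at h
    rw [h1] at h
    omega
  · exact absurd h (ord_lt h1).ne'

open Classical in
theorem card_edges_le {n k : ℕ} (G : SimpleGraph (Fin n))
    (hc : ∀ r, (univ.filter fun x => G.Reachable r x).card ≤ k) :
    (univ.filter fun e : Sym2 (Fin n) => e ∈ G.edgeSet).card ≤ n * k := by
  have h1 := G.sum_degrees_eq_twice_card_edges
  have h2 : ∀ x, G.degree x ≤ k := by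
    intro x
    rw [← SimpleGraph.card_neighborFinset_eq_degree]
    refine (card_le_card ?_).trans (hc x)
    intro y hy
    rw [SimpleGraph.mem_neighborFinset] at hy
    exact mem_filter.2 ⟨mem_univ _, hy.reachable⟩
  have h3 : ∑ x, G.degree x ≤ n * k := by
    refine (sum_le_sum fun x _ => h2 x).trans (le_of_eq ?_)
    rw [sum_const, card_univ, Fintype.card_fin, smul_eq_mul]
  have h4 : (univ.filter fun e : Sym2 (Fin n) => e ∈ G.edgeSet) = G.edgeFinset := by
    ext e
    simp
  rw [h4]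
  omega

/-- The main theorem, `k ≥ 1`, `n ≥ 1`. -/
theorem main_pos {k : ℕ} (hk : 0 < k) : ∃ C : ℕ, ∀ n : ℕ, 0 < n → ∃ N ≤ C * n,
    ∃ f : Sym2 (Fin N) → ℕ, Function.Injective f ∧ ∀ c : Sym2 (Fin N) → Bool, ∃ b : Bool,
      ∀ (G : SimpleGraph (Fin n)) (g : Sym2 (Fin n) → ℕ), Set.InjOn g G.edgeSet →
        G.IsAcyclic → (∀ A : G.ConnectedComponent, A.supp.ncard ≤ k) →
          ∃ φ : Fin n → Fin N, Function.Injective φ ∧
            (∀ e ∈ G.edgeSet, c (Sym2.map φ e) = b) ∧
            ∀ e ∈ G.edgeSet, ∀ e' ∈ G.edgeSet,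
              (g e < g e' ↔ f (Sym2.map φ e) < f (Sym2.map φ e')) := by
  classical
  set κ : ℕ := (k + 1) * ((k + 1) * k) with hκ
  set α : ℕ := thr (k * k) 1 k with hα
  have hκ1 : 1 ≤ κ := by
    rw [hκ]
    exact Nat.one_le_iff_ne_zero.2 (by positivity)
  have hα1 : 1 ≤ α := le_thr _ _ _
  have hq : 0 < k * k := Nat.mul_pos hk hk
  refine ⟨α * (2 * (6 * κ * (α + 1))) + 1, fun n hn => ?_⟩
  set m1 : ℕ := 6 * κ * (α + 1) * n with hm1
  set N : ℕ := α * (2 * m1) + 1 with hN
  set L : ℕ := (n * k + 1) * k with hL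
  set K : ℕ := (k + 1) * L with hK
  have hKκ : K ≤ κ * n := by
    have h1 : n * k + 1 ≤ n * (k + 1) := by
      rw [Nat.mul_add, Nat.mul_one]
      omega
    calc K ≤ (k + 1) * ((n * (k + 1)) * k) :=
          Nat.mul_le_mul_left _ (Nat.mul_le_mul_right _ h1)
      _ = κ * n := by rw [hκ]; ring
  have hm1n : κ * n ≤ m1 := by
    calc κ * n ≤ (κ * n) * (6 * (α + 1)) := Nat.le_mul_of_pos_right _ (by positivity)
      _ = m1 := by rw [hm1]; ring
  have hnm1 : n ≤ m1 := (Nat.le_mul_of_pos_left n hκ1).trans hm1n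
  have hNC : N ≤ (α * (2 * (6 * κ * (α + 1))) + 1) * n := by
    have h1 : (α * (2 * (6 * κ * (α + 1))) + 1) * n = α * (2 * m1) + n := by rw [hm1]; ring
    rw [h1]
    omega
  have hm1N : 2 * m1 ≤ α * (2 * m1) := Nat.le_mul_of_pos_left _ hα1
  have hKpos : 0 < K := by
    rw [hK, hL]
    positivity
  have hK2 : K < 2 ^ N := by
    have h1 : K ≤ N := by omega
    exact h1.trans_lt Nat.lt_two_pow_self
  have hKN : K * (3 * N) ≤ m1 * m1 := by
    have h1 : N ≤ (α + 1) * (2 * m1) := by
      have h2 : (α + 1) * (2 * m1) = α * (2 * m1) + 2 * m1 := by ring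
      omega
    calc K * (3 * N) ≤ (κ * n) * (3 * ((α + 1) * (2 * m1))) :=
          Nat.mul_le_mul hKκ (Nat.mul_le_mul_left _ h1)
      _ = m1 * m1 := by rw [hm1]; ring
  obtain ⟨W, hW⟩ := exists_windows' hKpos hK2 hKN
  refine ⟨N, hNC, ord W, ord_injective W, fun c => ?_⟩
  have hthr : thr (k * k) (2 * m1) k < N := by
    rw [thr_mul, ← hα]
    omega
  obtain ⟨b, ω, u, v, hω, hu0, huN, hstep, hrob⟩ :=
    exists_select (L := L) hq (le_of_eq hK.symm) hthr hW c
  refine ⟨b, fun G g hg hG hcomp => ?_⟩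
  have hc : ∀ r, (univ.filter fun x => G.Reachable r x).card ≤ k := by
    intro r
    have h1 := hcomp (G.connectedComponentMk r)
    have h2 : (G.connectedComponentMk r).supp =
        ((univ.filter fun x => G.Reachable r x : Finset (Fin n)) : Set (Fin n)) := by
      ext x
      rw [SimpleGraph.ConnectedComponent.mem_supp_iff, SimpleGraph.ConnectedComponent.eq, mem_coe,
        mem_filter]
      exact ⟨fun h => ⟨mem_univ _, h.symm⟩, fun h => h.2.symm⟩
    rw [h2, Set.ncard_coe_finset] at h1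
    exact h1
  set rk : Sym2 (Fin n) → ℕ := fun e =>
    (univ.filter fun e' : Sym2 (Fin n) => e' ∈ G.edgeSet ∧ g e' < g e).card with hrk
  have hrkle : ∀ e, rk e ≤ n * k := by
    intro e
    refine (card_le_card ?_).trans (card_edges_le G hc)
    intro e' he'
    rw [mem_filter] at he' ⊢
    exact ⟨he'.1, he'.2.1⟩
  have hrklt : ∀ e ∈ G.edgeSet, ∀ e', g e < g e' → rk e < rk e' := by
    intro e he e' hlt
    apply card_lt_card
    rw [ssubset_iff_of_subset]
    · exact ⟨e, mem_filter.2 ⟨mem_univ _, he, hlt⟩, fun h => absurd (mem_filter.1 h).2.2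
        (lt_irrefl _)⟩
    · intro x hx
      rw [mem_filter] at hx ⊢
      exact ⟨hx.1, hx.2.1, hx.2.2.trans hlt⟩
  have hidx : ∀ e (i : Fin k), rk e * k + i.1 < L := by
    intro e i
    have h1 := hrkle e
    have h2 := i.2
    have h3 := Nat.mul_le_mul_right k h1
    have h4 : L = n * k * k + k := by rw [hL]; ring
    omega
  set win : Sym2 (Fin n) → Fin k → Fin K := fun e i => ω ⟨rk e * k + i.1, hidx e i⟩ with hwin
  have hwinj : ∀ e, Function.Injective (win e) := by
    intro e i i' hii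
    have h1 := hω.injective hii
    rw [Fin.mk.injEq] at h1
    exact Fin.ext (by omega)
  obtain ⟨φ, hφ, hgood⟩ := embed_forest (W := W) (c := c) (b := b) (win := win)
    (show n ≤ 2 * m1 by omega) hG hwinj hu0 hstep huN (fun e i => hrob _) hc
  have hE : ∀ e ∈ G.edgeSet, ∃ i, W (Sym2.map φ e) = win e i ∧ c (Sym2.map φ e) = b := by
    intro e he
    induction e using Sym2.ind with
    | _ x y =>
      rw [SimpleGraph.mem_edgeSet] at he
      exact hgood x y he
  have hlt : ∀ e ∈ G.edgeSet, ∀ e' ∈ G.edgeSet, g e < g e' →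
      ord W (Sym2.map φ e) < ord W (Sym2.map φ e') := by
    intro e he e' he' h
    obtain ⟨i, hi, -⟩ := hE e he
    obtain ⟨i', hi', -⟩ := hE e' he'
    apply ord_lt
    rw [hi, hi']
    apply hω
    rw [Fin.mk_lt_mk]
    have h1 : rk e + 1 ≤ rk e' := hrklt e he e' h
    have h2 := Nat.mul_le_mul_right k h1
    have h3 : (rk e + 1) * k = rk e * k + k := by ring
    have h4 := i.2
    omega
  refine ⟨φ, hφ, fun e he => ?_, fun e he e' he' => ⟨hlt e he e' he', fun h => ?_⟩⟩
  · obtain ⟨i, -, h⟩ := hE e he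
    exact h
  · by_contra hcon
    rcases lt_or_eq_of_le (not_lt.1 hcon) with h1 | h1
    · exact absurd h (hlt e' he' e he h1).not_gt
    · have h2 := hg he' he h1
      rw [h2] at h
      exact lt_irrefl _ h

/-- The main theorem. -/
theorem main (k : ℕ) : ∃ C : ℕ, ∀ n : ℕ, ∃ N ≤ C * n,
    ∃ f : Sym2 (Fin N) → ℕ, Function.Injective f ∧ ∀ c : Sym2 (Fin N) → Bool, ∃ b : Bool,
      ∀ (G : SimpleGraph (Fin n)) (g : Sym2 (Fin n) → ℕ), Set.InjOn g G.edgeSet →
        G.IsAcyclic → (∀ A : G.ConnectedComponent, A.supp.ncard ≤ k) →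
          ∃ φ : Fin n → Fin N, Function.Injective φ ∧
            (∀ e ∈ G.edgeSet, c (Sym2.map φ e) = b) ∧
            ∀ e ∈ G.edgeSet, ∀ e' ∈ G.edgeSet,
              (g e < g e' ↔ f (Sym2.map φ e) < f (Sym2.map φ e')) := by
  obtain ⟨C, hC⟩ := main_pos (k := k + 1) (Nat.succ_pos k)
  refine ⟨C, fun n => ?_⟩
  rcases Nat.eq_zero_or_pos n with rfl | hn
  · refine ⟨0, Nat.zero_le _, fun _ => 0, ?_, fun c => ⟨true, fun G g _ _ _ => ?_⟩⟩
    · intro e
      induction e using Sym2.ind with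
      | _ x y => exact x.elim0
    · refine ⟨fun x => x, fun x => x.elim0, fun e => ?_, fun e => ?_⟩
      · induction e using Sym2.ind with
        | _ x y => exact x.elim0
      · induction e using Sym2.ind with
        | _ x y => exact x.elim0
  · obtain ⟨N, hN, f, hf, h⟩ := hC n hn
    refine ⟨N, hN, f, hf, fun c => ?_⟩
    obtain ⟨b, hb⟩ := h c
    exact ⟨b, fun G g hg hG hA => hb G g hg hG fun A => (hA A).trans (Nat.le_succ k)⟩

end Pool.Agent.EOForest
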