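import Pool.Agent.EOForest.Host

/-!
# The type of a window

`nb W c b w A` is the set of the vertices with an edge of window `w` and of colour `b` to `A`.
-/

set_option autoImplicit false

open Finset

namespace Pool.Agent.EOForest

variable {N K : ℕ}

/-- the vertices with an edge of window `w` and colour `b` to `A` -/
def nb (W : Sym2 (Fin N) → Fin K) (c : Sym2 (Fin N) → Bool) (b : Bool) (w : Fin K)
    (A : Finset (Fin N)) : Finset (Fin N) :=
  univ.filter fun y => ∃ z ∈ A, z ≠ y ∧ W s(y, z) = w ∧ c s(y, z) = b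

theorem mem_nb {W : Sym2 (Fin N) → Fin K} {c : Sym2 (Fin N) → Bool} {b : Bool} {w : Fin K}
    {A : Finset (Fin N)} {y : Fin N} :
    y ∈ nb W c b w A ↔ ∃ z ∈ A, z ≠ y ∧ W s(y, z) = w ∧ c s(y, z) = b := by
  simp [nb]

theorem nb_mono {W : Sym2 (Fin N) → Fin K} {c : Sym2 (Fin N) → Bool} {b : Bool} {w : Fin K}
    {A A' : Finset (Fin N)} (h : A ⊆ A') : nb W c b w A ⊆ nb W c b w A' := by
  intro y hy
  rw [mem_nb] at hy ⊢
  obtain ⟨z, hz, h1⟩ := hy
  exact ⟨z, h hz, h1⟩

/-- a jump in one colour gives contraction in the other colour -/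
theorem contract {W : Sym2 (Fin N) → Fin K} {c : Sym2 (Fin N) → Bool} {m β : ℕ}
    (hW : ∀ (w : Fin K) (Y Z : Finset (Fin N)), m ≤ Y.card → m ≤ Z.card →
      ∃ y ∈ Y, ∃ z ∈ Z, z ≠ y ∧ W s(y, z) = w)
    (w : Fin K) (b : Bool) {A A' : Finset (Fin N)} (hj : β < (nb W c b w A)ᶜ.card)
    (hA' : A'ᶜ.card + m ≤ β) : (nb W c (!b) w A')ᶜ.card ≤ Aᶜ.card + m := by
  by_contra hcon
  push Not at hcon
  set X := (nb W c b w A)ᶜ with hX
  set Y := (nb W c (!b) w A')ᶜ with hY
  have h1 : m ≤ (X ∩ A').card := by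
    have h2 : X.card ≤ (X ∩ A').card + A'ᶜ.card := by
      calc X.card ≤ ((X ∩ A') ∪ A'ᶜ).card := by
            apply card_le_card
            intro x hx
            by_cases hx' : x ∈ A'
            · exact mem_union_left _ (mem_inter.2 ⟨hx, hx'⟩)
            · exact mem_union_right _ (mem_compl.2 hx')
        _ ≤ (X ∩ A').card + A'ᶜ.card := card_union_le _ _
    omega
  have h2 : m ≤ (Y ∩ A).card := by
    have h3 : Y.card ≤ (Y ∩ A).card + Aᶜ.card := by
      calc Y.card ≤ ((Y ∩ A) ∪ Aᶜ).card := by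
            apply card_le_card
            intro x hx
            by_cases hx' : x ∈ A
            · exact mem_union_left _ (mem_inter.2 ⟨hx, hx'⟩)
            · exact mem_union_right _ (mem_compl.2 hx')
        _ ≤ (Y ∩ A).card + Aᶜ.card := card_union_le _ _
    omega
  obtain ⟨y, hy, z, hz, hne, hw⟩ := hW w _ _ h2 h1
  rw [mem_inter] at hy hz
  by_cases hc : c s(y, z) = b
  · apply mem_compl.1 hz.1
    rw [mem_nb]
    refine ⟨y, hy.2, hne.symm, ?_, ?_⟩
    · rw [Sym2.eq_swap]; exact hw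
    · rw [Sym2.eq_swap]; exact hc
  · apply mem_compl.1 hy.1
    rw [mem_nb]
    refine ⟨z, hz.2, hne, hw, ?_⟩
    revert hc
    cases c s(y, z) <;> cases b <;> simp

/-- the thresholds -/
def thr (q m : ℕ) : ℕ → ℕ
  | 0 => m
  | j + 1 => m + q * (2 * m + q * (thr q m j + m))

theorem thr_succ (q m j : ℕ) : thr q m (j + 1) = m + q * (2 * m + q * (thr q m j + m)) := rfl

theorem thr_mul (q m j : ℕ) : thr q m j = thr q 1 j * m := by
  induction j with
  | zero => simp [thr]
  | succ j ih =>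
    rw [thr_succ, thr_succ, ih]
    ring

theorem le_thr (q m j : ℕ) : m ≤ thr q m j := by
  cases j with
  | zero => exact le_rfl
  | succ j => rw [thr_succ]; omega

theorem thr_mono {q m : ℕ} (hq : 0 < q) : Monotone (thr q m) := by
  refine monotone_nat_of_le_succ fun j => ?_
  rw [thr_succ]
  have h1 : thr q m j + m ≤ q * (thr q m j + m) := Nat.le_mul_of_pos_left _ hq
  have h2 : 2 * m + q * (thr q m j + m) ≤ q * (2 * m + q * (thr q m j + m)) :=
    Nat.le_mul_of_pos_left _ hq
  omega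

/-- the property of the chosen windows -/
def Rob (W : Sym2 (Fin N) → Fin K) (c : Sym2 (Fin N) → Bool) (b : Bool) (w : Fin K)
    (u v : ℕ → ℕ) (k : ℕ) : Prop :=
  ∀ j < k, ∀ A : Finset (Fin N), Aᶜ.card ≤ u j → (nb W c b w A)ᶜ.card ≤ v j

/-- the choice of the colour and of the windows -/
theorem exists_select {k q m L : ℕ} (hq : 0 < q) (hK : (k + 1) * L ≤ K) (hN : thr q m k < N)
    {W : Sym2 (Fin N) → Fin K}
    (hW : ∀ (w : Fin K) (Y Z : Finset (Fin N)), m ≤ Y.card → m ≤ Z.card →
      ∃ y ∈ Y, ∃ z ∈ Z, z ≠ y ∧ W s(y, z) = w) (c : Sym2 (Fin N) → Bool) :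
    ∃ (b : Bool) (ω : Fin L → Fin K) (u v : ℕ → ℕ), StrictMono ω ∧ m ≤ u 0 ∧
      (∀ j ≤ k, u j < N) ∧ (∀ j < k, m + q * v j ≤ u (j + 1)) ∧
      ∀ i, Rob W c b (ω i) u v k := by
  classical
  set β : ℕ → ℕ := fun j => 2 * m + q * (thr q m j + m) with hβ
  set J : Fin K → ℕ → Prop := fun w j =>
    ∃ A : Finset (Fin N), Aᶜ.card ≤ thr q m j ∧ β j < (nb W c true w A)ᶜ.card with hJ
  set typ : Fin K → Fin (k + 1) := fun w =>
    if h : ∃ j : Fin (k + 1), j.1 < k ∧ J w j.1 then h.choose else Fin.last k with htyp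
  have hpig : ∃ τ : Fin (k + 1), L ≤ (univ.filter fun w => typ w = τ).card := by
    refine exists_le_card_fiber_of_mul_le_card_of_maps_to (s := univ) (t := univ)
      (fun w _ => mem_univ _) ⟨0, mem_univ _⟩ ?_ |>.imp fun τ h => h.2
    rw [card_univ, card_univ, Fintype.card_fin, Fintype.card_fin]
    exact hK
  obtain ⟨τ, hτ⟩ := hpig
  set ω := (univ.filter fun w => typ w = τ).orderEmbOfCardLe hτ with hω
  have hmem : ∀ i, typ (ω i) = τ := fun i =>
    (mem_filter.1 (orderEmbOfCardLe_mem (univ.filter fun w => typ w = τ) hτ i)).2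
  by_cases hτk : τ = Fin.last k
  · -- no jump in the colour `true`
    refine ⟨true, ω, thr q m, β, ω.strictMono, le_rfl, ?_, ?_, ?_⟩
    · intro j hj
      exact (thr_mono hq hj).trans_lt hN
    · intro j _
      rw [thr_succ]
    · intro i j hj A hA
      by_contra hcon
      push Not at hcon
      have h1 : ∃ j : Fin (k + 1), j.1 < k ∧ J (ω i) j.1 :=
        ⟨⟨j, by omega⟩, hj, A, hA, hcon⟩
      have h2 := hmem i
      rw [htyp] at h2
      simp only [h1, dif_pos] at h2
      have h3 := h1.choose_spec.1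
      rw [h2, hτk] at h3
      simp at h3
  · have hτ' : τ.1 < k := by
      have h1 := τ.2
      have h2 : τ.1 ≠ k := fun h => hτk (Fin.ext h)
      omega
    refine ⟨false, ω, fun _ => β τ.1 - m, fun _ => thr q m τ.1 + m, ω.strictMono, ?_, ?_, ?_, ?_⟩
    · simp only [hβ]
      omega
    · intro j _
      have h1 : β τ.1 ≤ thr q m (τ.1 + 1) := by
        rw [thr_succ]
        have h2 : β τ.1 ≤ q * β τ.1 := Nat.le_mul_of_pos_left _ hq
        simp only [hβ] at h2 ⊢
        omega
      have h2 : thr q m (τ.1 + 1) ≤ thr q m k := thr_mono hq hτ'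
      show β τ.1 - m < N
      omega
    · intro j _
      simp only [hβ]
      omega
    · intro i j hj A hA
      have h1 : ∃ j : Fin (k + 1), j.1 < k ∧ J (ω i) j.1 := by
        by_contra hcon
        have h2 := hmem i
        rw [htyp] at h2
        simp only [hcon, dif_neg, not_false_eq_true] at h2
        exact hτk h2.symm
      have h2 := hmem i
      rw [htyp] at h2
      simp only [h1, dif_pos] at h2
      have h3 := h1.choose_spec.2
      rw [h2] at h3
      obtain ⟨A₀, h4, h5⟩ := h3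
      have h6 : Aᶜ.card + m ≤ β τ.1 := by
        have h7 : Aᶜ.card ≤ β τ.1 - m := hA
        have h8 : m ≤ β τ.1 := by simp only [hβ]; omega
        omega
      have h7 := contract hW (ω i) true h5 h6
      show (nb W c false (ω i) A)ᶜ.card ≤ thr q m τ.1 + m
      have h8 : (!true) = false := rfl
      rw [h8] at h7
      omega

end Pool.Agent.EOForest
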